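import Mathlib
import Pool.Agent.Y272.LC.Stm5

set_option autoImplicit false
set_option linter.all false

/-! # Project LC: the lower modulus with the law of the iterated logarithm -/

namespace Pool.Agent.Y468.LC

open Filter Topology Pool.Agent.Y272.LC

theorem log_pow_le (ε : ℝ) (hε : 0 < ε) (s : ℝ) (hs : 0 < s) :
    ∀ᶠ X : ℝ in atTop, Real.log X ^ 6 ≤ ε * X ^ s := by
  have h1 := isLittleO_log_rpow_rpow_atTop (s := s) 6 hs
  have h2 := h1.def hε
  filter_upwards [h2, eventually_ge_atTop (1 : ℝ)] with X hX hX1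
  have h3 : Real.log X ^ (6 : ℝ) = Real.log X ^ 6 := by
    rw [← Real.rpow_natCast]
    norm_num
  rw [h3, Real.norm_of_nonneg (pow_nonneg (Real.log_nonneg hX1) 6),
    Real.norm_of_nonneg (Real.rpow_nonneg (by linarith) s)] at hX
  exact hX

theorem step1 (good P : ℕ → Prop)
    (hg : ∀ᶠ N : ℕ in atTop, ∃ n : ℕ, N ≤ n ∧ (n : ℝ) ≤ N + Real.log N ^ 6 ∧ good n)
    (hP : ∀ᶠ n : ℕ in atTop, P n) :
    ∀ᶠ X : ℝ in atTop, ∃ n : ℕ, good n ∧ P n ∧ X < (n : ℝ) ∧
      (n : ℝ) ≤ X + 1 + Real.log (X + 1) ^ 6 ∧ 3 ≤ n := by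
  obtain ⟨N0, hN0⟩ := eventually_atTop.1 hP
  have ht : Tendsto (fun X : ℝ => ⌊X⌋₊ + 1) atTop atTop :=
    tendsto_atTop_mono (fun X => Nat.le_succ _) tendsto_nat_floor_atTop
  filter_upwards [ht.eventually hg, ht.eventually (eventually_ge_atTop N0),
    ht.eventually (eventually_ge_atTop 3), eventually_ge_atTop (1 : ℝ)] with X h1 h2 h3 h5
  obtain ⟨n, hn1, hn2, hn3⟩ := h1
  set N := ⌊X⌋₊ + 1 with hN
  have h6 : (N : ℝ) ≤ X + 1 := by
    have := Nat.floor_le (show (0 : ℝ) ≤ X by linarith)
    rw [hN]; push_cast; linarith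
  have h7 : X < N := by
    have := Nat.lt_floor_add_one X
    rw [hN]; push_cast; linarith
  have h9 : (3 : ℝ) ≤ N := by exact_mod_cast h3
  have h11 : Real.log N ≤ Real.log (X + 1) := Real.log_le_log (by linarith) h6
  have h12 : Real.log N ^ 6 ≤ Real.log (X + 1) ^ 6 :=
    pow_le_pow_left₀ (Real.log_nonneg (by linarith)) h11 6
  have h13 : (N : ℝ) ≤ n := by exact_mod_cast hn1
  exact ⟨n, hn3, hN0 n (h2.trans hn1), by linarith, by linarith, h3.trans hn1⟩

theorem t : St_Mod3 := by
  intro d M C₁ C₃ good hd hC₁ hC₃ hM hlil hgood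
  set L := Real.log d with hL
  have hd' : (2 : ℝ) ≤ d := by exact_mod_cast hd
  have hLpos : 0 < L := Real.log_pos (by linarith)
  have hst := step1 good _ hgood hlil
  have hX : Tendsto (fun Y : ℝ => (Y + Real.log C₃) / L) atTop atTop :=
    (tendsto_atTop_add_const_right _ _ tendsto_id).atTop_div_const hLpos
  have hX1 : Tendsto (fun Y : ℝ => (Y + Real.log C₃) / L + 1) atTop atTop :=
    tendsto_atTop_add_const_right _ _ hX
  have hll : Tendsto (fun Y : ℝ => Real.log (Real.log Y)) atTop atTop :=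
    Real.tendsto_log_atTop.comp Real.tendsto_log_atTop
  have key : ∀ᶠ Y : ℝ in atTop, ∃ n : ℕ, good n ∧ (Y + Real.log C₃) / L < (n : ℝ) ∧
      Real.log (M n) ≤ Real.log C₁ + Y + (97 + 65 * L) * √(Y * Real.log (Real.log Y)) := by
    filter_upwards [hX.eventually hst, hX.eventually (eventually_ge_atTop 3),
      hll.eventually (eventually_ge_atTop 1), eventually_ge_atTop (1 : ℝ),
      eventually_ge_atTop (Real.log C₃), eventually_ge_atTop (4 / L),
      log_pow_le 1 one_pos (1 / 2) (by norm_num),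
      eventually_ge_atTop ((Real.log C₃ - Real.log C₁) ^ 2),
      hX1.eventually (log_pow_le (1 / 2) (by norm_num) 1 one_pos)]
      with Y h1 h2 h3 h4 h5 h6 h7 h8 h9
    obtain ⟨n, hn1, hn2, hn3, hn4, hn5⟩ := h1
    refine ⟨n, hn1, hn3, ?_⟩
    set X := (Y + Real.log C₃) / L with hXd
    have hXL : X * L = Y + Real.log C₃ := div_mul_cancel₀ _ hLpos.ne'
    have hn5' : (3 : ℝ) ≤ n := by exact_mod_cast hn5
    rw [Real.rpow_one] at h9
    have hn2X : (n : ℝ) ≤ 2 * X := by linarith
    -- logarithms of X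
    have hXY : 2 * X ≤ Y ^ 2 := by
      have e1 : 4 ≤ Y * L := by rwa [div_le_iff₀ hLpos] at h6
      have e2 : 2 * X * L ≤ Y ^ 2 * L := by nlinarith
      exact le_of_mul_le_mul_right e2 hLpos
    have hYpos : 0 < Y := by linarith
    have hlX : Real.log (2 * X) ≤ 2 * Real.log Y := by
      have := Real.log_le_log (by linarith) hXY
      rwa [Real.log_pow, Nat.cast_ofNat] at this
    have hlY : 0 < Real.log Y := by
      by_contra hcon
      push Not at hcon
      have hz : Real.log Y = 0 := le_antisymm hcon (Real.log_nonneg h4)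
      rw [hz, Real.log_zero] at h3
      linarith
    have hl3 : 1 ≤ Real.log 3 := by
      rw [Real.le_log_iff_exp_le (by norm_num)]
      linarith [Real.exp_one_lt_d9]
    have hlX1 : 1 ≤ Real.log (2 * X) :=
      hl3.trans (Real.log_le_log (by norm_num) (by linarith))
    have hllX : Real.log (Real.log (2 * X)) ≤ 2 * Real.log (Real.log Y) := by
      have e1 := Real.log_le_log (by linarith) hlX
      rw [Real.log_mul (by norm_num) hlY.ne'] at e1
      have e2 : Real.log 2 ≤ 1 := by linarith [Real.log_two_lt_d9]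
      linarith
    -- the square root
    set R := √(Y * Real.log (Real.log Y)) with hR
    have hR0 : 0 ≤ R := Real.sqrt_nonneg _
    have hYR : √Y ≤ R := by
      rw [hR]
      apply Real.sqrt_le_sqrt
      nlinarith
    have h1Y : 1 ≤ √Y := by
      rw [Real.one_le_sqrt]
      exact h4
    have e1 : Real.log (X + 1) ^ 6 ≤ 64 * R := by
      have e0 : Real.log (X + 1) ≤ Real.log (2 * X) := Real.log_le_log (by linarith) (by linarith)
      have e2 : Real.log (X + 1) ^ 6 ≤ (2 * Real.log Y) ^ 6 :=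
        pow_le_pow_left₀ (Real.log_nonneg (by linarith)) (e0.trans hlX) 6
      have e3 : Real.log Y ^ 6 ≤ √Y := by
        rw [Real.sqrt_eq_rpow]
        linarith
      have e4 : (2 * Real.log Y) ^ 6 = 64 * Real.log Y ^ 6 := by ring
      linarith
    have e2 : √(n * L * Real.log (Real.log n)) ≤ 3 * R := by
      have e3 : (n : ℝ) * L * Real.log (Real.log n) ≤ (4 * Y) * (2 * Real.log (Real.log Y)) := by
        have e4 : (n : ℝ) * L ≤ 4 * Y := by
          have : (n : ℝ) * L ≤ 2 * X * L := mul_le_mul_of_nonneg_right hn2X hLpos.le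
          linarith
        have e6 : 1 ≤ Real.log n := hl3.trans (Real.log_le_log (by norm_num) hn5')
        have e5 : Real.log (Real.log n) ≤ 2 * Real.log (Real.log Y) := by
          refine le_trans ?_ hllX
          exact Real.log_le_log (by linarith) (Real.log_le_log (by linarith) hn2X)
        have e7 : 0 ≤ Real.log (Real.log n) := Real.log_nonneg e6
        exact mul_le_mul e4 e5 e7 (by linarith)
      have e8 : (4 * Y) * (2 * Real.log (Real.log Y)) ≤ 3 ^ 2 * (Y * Real.log (Real.log Y)) := by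
        have : 0 ≤ Y * Real.log (Real.log Y) := mul_nonneg hYpos.le (by linarith)
        linarith
      have e9 := Real.sqrt_le_sqrt (e3.trans e8)
      have e10 : √(3 ^ 2 * (Y * Real.log (Real.log Y))) = 3 * R := by
        rw [Real.sqrt_mul (show (0 : ℝ) ≤ 3 ^ 2 by norm_num), Real.sqrt_sq (by norm_num)]
      rw [e10] at e9
      exact e9
    have e3 : Real.log (M n) ≤ (n : ℝ) * L + 96 * R := by
      have := (abs_le.1 hn2).2
      linarith
    have e4 : (n : ℝ) * L ≤ (X + 1 + Real.log (X + 1) ^ 6) * L :=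
      mul_le_mul_of_nonneg_right hn4 hLpos.le
    have e5 : Real.log C₃ - Real.log C₁ ≤ R := by
      have : Real.log C₃ - Real.log C₁ ≤ √Y := Real.le_sqrt_of_sq_le h8
      linarith
    have e6 : Real.log (X + 1) ^ 6 * L ≤ 64 * R * L := mul_le_mul_of_nonneg_right e1 hLpos.le
    have e7 : L ≤ R * L := by
      have : 1 ≤ R := h1Y.trans hYR
      nlinarith
    nlinarith
  obtain ⟨Y0, hY0⟩ := eventually_atTop.1 key
  refine ⟨97 + 65 * L, Real.exp (-Y0), by positivity, Real.exp_pos _, ?_⟩
  intro h hh hh0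
  have hlog : Real.log (1 / h) = -Real.log h := by rw [one_div, Real.log_inv]
  have hY : Y0 ≤ Real.log (1 / h) := by
    have := Real.log_le_log hh hh0.le
    rw [Real.log_exp] at this
    rw [hlog]
    linarith
  obtain ⟨n, hn1, hn2, hn3⟩ := hY0 _ hY
  refine ⟨n, hn1, ?_, ?_⟩
  · have hdn : (0 : ℝ) < d ^ n * h := by positivity
    rw [← Real.log_lt_log_iff hC₃ hdn, Real.log_mul (by positivity) hh.ne', Real.log_pow]
    rw [div_lt_iff₀ hLpos, hlog] at hn2
    linarith
  · have hq : 0 < C₁ / M n := div_pos hC₁ (hM n)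
    rw [← Real.log_le_log_iff (by positivity) hq, Real.log_div hC₁.ne' (hM n).ne',
      Real.log_mul hh.ne' (Real.exp_pos _).ne', Real.log_exp]
    have : Real.log h = -Real.log (1 / h) := by rw [hlog, neg_neg]
    rw [this]
    linarith

end Pool.Agent.Y468.LC
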